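import Pool.Agent.Q240.SD.Stm

/-! Job SD-GAU: the truncated Gaussian integral (`S_Gau`). -/

open MeasureTheory Set

namespace Pool.Agent.Q204.SD

theorem full (s : ℝ) (w : ℂ) (hs : 0 < s) :
    Integrable (fun t : ℝ => Complex.exp (s * (w - t * Complex.I) ^ 2)) ∧
    ∫ t : ℝ, Complex.exp (s * (w - t * Complex.I) ^ 2) = (Real.sqrt (Real.pi / s) : ℂ) := by
  have hb : (-(s : ℂ)).re < 0 := by simpa using hs
  have hs0 : (s : ℂ) ≠ 0 := by exact_mod_cast hs.ne'
  have heq : (fun t : ℝ => Complex.exp (s * (w - t * Complex.I) ^ 2)) =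
      fun t : ℝ => Complex.exp (-(s : ℂ) * (t : ℂ) ^ 2 + (-(2 * Complex.I * s * w)) * t + s * w ^ 2) := by
    funext t
    congr 1
    linear_combination (s : ℂ) * (t : ℂ) ^ 2 * Complex.I_sq
  rw [heq]
  refine ⟨?_, ?_⟩
  · exact integrable_cexp_quadratic (b := (s : ℂ)) (by simpa using hs) _ _
  · rw [integral_cexp_quadratic hb]
    have h1 : (s : ℂ) * w ^ 2 - (-(2 * Complex.I * s * w)) ^ 2 / (4 * (-(s : ℂ))) = 0 := by
      have : (-(2 * Complex.I * s * w)) ^ 2 = -4 * (s : ℂ) ^ 2 * w ^ 2 := by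
        linear_combination 4 * (s : ℂ) ^ 2 * w ^ 2 * Complex.I_sq
      rw [this]
      field_simp
      ring
    rw [h1, Complex.exp_zero, mul_one, neg_neg]
    rw [Real.sqrt_eq_rpow, Complex.ofReal_cpow (by positivity)]
    push_cast
    rfl

theorem gau : Pool.Agent.Q240.SD.S_Gau := by
  refine ⟨20, by norm_num, fun s w hs hre him => ?_⟩
  have hs0 : 0 < s := by linarith
  obtain ⟨hint, hval⟩ := full s w hs0
  set f : ℝ → ℂ := fun t : ℝ => Complex.exp (s * (w - t * Complex.I) ^ 2) with hf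
  have h1 : ∫ t in (-1 : ℝ)..1, f t = ∫ t in Ioc (-1 : ℝ) 1, f t :=
    intervalIntegral.integral_of_le (by norm_num)
  have h2 : (∫ t in Ioc (-1 : ℝ) 1, f t) + ∫ t in (Ioc (-1 : ℝ) 1)ᶜ, f t = ∫ t, f t :=
    integral_add_compl measurableSet_Ioc hint
  have h3 : (∫ t in (-1 : ℝ)..1, f t) - (Real.sqrt (Real.pi / s) : ℂ) =
      -∫ t in (Ioc (-1 : ℝ) 1)ᶜ, f t := by
    rw [h1, ← hval, ← h2]
    ring
  change ‖(∫ t in (-1 : ℝ)..1, f t) - (Real.sqrt (Real.pi / s) : ℂ)‖ ≤ _
  rw [h3, norm_neg]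
  have hg : Integrable (fun t : ℝ => Real.exp (-(s / 4)) * Real.exp (-(s / 4) * t ^ 2)) :=
    (integrable_exp_neg_mul_sq (by positivity)).const_mul _
  have hbound : ∀ t ∈ (Ioc (-1 : ℝ) 1)ᶜ, ‖f t‖ ≤ Real.exp (-(s / 4)) * Real.exp (-(s / 4) * t ^ 2) := by
    intro t ht
    have ht1 : 1 ≤ |t| := by
      by_contra hcon
      rw [not_le, abs_lt] at hcon
      exact ht ⟨hcon.1, hcon.2.le⟩
    rw [hf]
    simp only
    rw [Complex.norm_exp, ← Real.exp_add]
    apply Real.exp_le_exp.2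
    have hre2 : ((s : ℂ) * (w - t * Complex.I) ^ 2).re = s * (w.re ^ 2 - (w.im - t) ^ 2) := by
      rw [Complex.re_ofReal_mul]
      congr 1
      simp [pow_two, Complex.mul_re, Complex.sub_re, Complex.sub_im]
    rw [hre2]
    have ha : w.re ^ 2 ≤ 1 / 4 := by
      have := abs_le.1 hre
      nlinarith
    have htt : 1 ≤ t ^ 2 := by
      rw [← sq_abs]; nlinarith
    have hb : 3 / 4 * t ^ 2 ≤ (w.im - t) ^ 2 := by
      have h5 : 7 / 8 * |t| ≤ |w.im - t| := by
        have h6 := abs_sub_abs_le_abs_sub t w.im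
        rw [abs_sub_comm t w.im] at h6
        linarith
      have h4 : (7 / 8 * |t|) ^ 2 ≤ (w.im - t) ^ 2 := by
        rw [← sq_abs (w.im - t)]
        exact pow_le_pow_left₀ (by positivity) h5 2
      rw [mul_pow, sq_abs] at h4
      nlinarith
    nlinarith
  calc ‖∫ t in (Ioc (-1 : ℝ) 1)ᶜ, f t‖
      ≤ ∫ t in (Ioc (-1 : ℝ) 1)ᶜ, Real.exp (-(s / 4)) * Real.exp (-(s / 4) * t ^ 2) := by
        apply norm_integral_le_of_norm_le hg.integrableOn
        exact (ae_restrict_mem measurableSet_Ioc.compl).mono hbound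
    _ ≤ ∫ t : ℝ, Real.exp (-(s / 4)) * Real.exp (-(s / 4) * t ^ 2) :=
        setIntegral_le_integral hg (Filter.Eventually.of_forall fun t => by positivity)
    _ = Real.exp (-(s / 4)) * (2 * Real.sqrt (Real.pi / s)) := by
        rw [integral_const_mul, integral_gaussian]
        congr 1
        have : Real.pi / (s / 4) = 2 ^ 2 * (Real.pi / s) := by field_simp; ring
        rw [this, Real.sqrt_mul (by norm_num), Real.sqrt_sq (by norm_num)]
    _ ≤ Real.sqrt (Real.pi / s) / 10 := by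
        have h5 : Real.exp (-(s / 4)) ≤ 1 / 20 := by
          have h6 : (20 : ℝ) ≤ Real.exp 5 := by
            have h7 : (2 : ℝ) ≤ Real.exp 1 := by linarith [Real.add_one_le_exp (1 : ℝ)]
            have h8 : Real.exp 5 = Real.exp 1 ^ 5 := by
              rw [← Real.exp_nat_mul]; norm_num
            rw [h8]
            calc (20 : ℝ) ≤ 2 ^ 5 := by norm_num
              _ ≤ Real.exp 1 ^ 5 := by gcongr
          have h9 : Real.exp (-(s / 4)) ≤ Real.exp (-5) := Real.exp_le_exp.2 (by linarith)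
          rw [Real.exp_neg 5] at h9
          calc Real.exp (-(s / 4)) ≤ (Real.exp 5)⁻¹ := h9
            _ ≤ 1 / 20 := by
              rw [one_div]
              exact inv_anti₀ (by norm_num) h6
        have h10 : 0 ≤ Real.sqrt (Real.pi / s) := Real.sqrt_nonneg _
        nlinarith

end Pool.Agent.Q204.SD
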